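import Mathlib
import Pool.Agent.W42.RG.Defs

set_option autoImplicit false
set_option linter.unusedSectionVars false
set_option linter.unusedVariables false

/-!
The induction over the ideals (statement `S_UNI` of `Pool.Agent.W42.RG.Defs`).
-/

namespace Pool.Agent.W319.LX

open Finset Filter Topology MeasureTheory Pool.Agent.W42.RN Pool.Agent.W42.RL Pool.Agent.W42.RG

variable {X : Type} [MeasurableSpace X]
variable {𝔤 : Type} [LieRing 𝔤] [LieAlgebra ℝ 𝔤] [FiniteDimensional ℝ 𝔤] [TopologicalSpace 𝔤]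
  [IsTopologicalAddGroup 𝔤] [ContinuousSMul ℝ 𝔤] [T2Space 𝔤]
variable {μ : Measure X} [IsProbabilityMeasure μ] {E : 𝔤 → X → X}

theorem meas_of_conj {S : X → X} (hS : MeasurePreserving S μ μ) {a : 𝔤 → 𝔤}
    (h : ∀ Y, Same μ (S ∘ E Y) (E (a Y) ∘ S)) (K : LieIdeal ℝ 𝔤) (hK : ∀ Y ∈ K, a Y ∈ K) :
    Measurable[mK μ E (K : Set 𝔤), mK μ E (K : Set 𝔤)] S := by
  intro A hA
  refine ⟨hS.measurable hA.1, fun Y hY => ?_⟩
  have h1 : E Y ⁻¹' (S ⁻¹' A) =ᵐ[μ] S ⁻¹' (E (a Y) ⁻¹' A) := h Y A hA.1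
  exact h1.trans (pre_ae hS (hA.2 _ (hK Y hY)))

theorem symm_conj' {T : X ≃ᵐ X} (hT : MeasurePreserving T μ μ) (A : 𝔤 ≃ₗ[ℝ] 𝔤)
    (h : ∀ Y, Same μ (T ∘ E Y) (E (A Y) ∘ T)) (Y : 𝔤) :
    Same μ (T.symm ∘ E Y) (E (A.symm Y) ∘ T.symm) := by
  have hT' : MeasurePreserving T.symm μ μ := hT.symm T
  have h1 := h (A.symm Y)
  rw [A.apply_symm_apply] at h1
  have g1 := (h1.symm.left (R := T.symm) T.symm.measurable).right hT'
  have e1 : (T.symm ∘ (E Y ∘ T)) ∘ T.symm = T.symm ∘ E Y := by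
    funext p
    simp only [Function.comp_apply, T.apply_symm_apply]
  have e2 : (T.symm ∘ (T ∘ E (A.symm Y))) ∘ T.symm = E (A.symm Y) ∘ T.symm := by
    funext p
    simp only [Function.comp_apply, T.symm_apply_apply]
  rw [e1, e2] at g1
  exact g1

/-- the preimage of an ideal under a bracket preserving linear map -/
def preI (A : 𝔤 ≃ₗ[ℝ] 𝔤) (hA : ∀ Y Z : 𝔤, A ⁅Y, Z⁆ = ⁅A Y, A Z⁆) (K : LieIdeal ℝ 𝔤) :
    LieIdeal ℝ 𝔤 :=
  { carrier := {V | A V ∈ K}
    zero_mem' := by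
      show A 0 ∈ K
      rw [map_zero]; exact K.toSubmodule.zero_mem
    add_mem' := by
      intro a b g1 g2
      show A (a + b) ∈ K
      rw [map_add]; exact K.toSubmodule.add_mem g1 g2
    smul_mem' := by
      intro t a g1
      show A (t • a) ∈ K
      rw [map_smul]; exact K.toSubmodule.smul_mem t g1
    lie_mem := by
      intro Z V g1
      show A ⁅Z, V⁆ ∈ K
      rw [hA]; exact K.lie_mem g1 }

theorem mem_preI (A : 𝔤 ≃ₗ[ℝ] 𝔤) (hA : ∀ Y Z : 𝔤, A ⁅Y, Z⁆ = ⁅A Y, A Z⁆) (K : LieIdeal ℝ 𝔤)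
    (V : 𝔤) : V ∈ preI A hA K ↔ A V ∈ K := Iff.rfl

theorem nA_apply (A : 𝔤 ≃ₗ[ℝ] 𝔤) (V : 𝔤) : nA A V = A V - V := rfl

theorem t_UNI (h1 : S_NILW) (h2 : S_MAUX) (h3 : S_SHEAR) : S_UNI := by
  intro X _ 𝔤 _ _ _ _ _ _ _ μ _ E hG hE T hT A hA hTA K hK k hmix
  set L : LieIdeal ℝ 𝔤 := K ⊔ LieSubmodule.lieSpan ℝ 𝔤 (uni A) with hL
  suffices main : ∀ K1 : LieIdeal ℝ 𝔤, K ≤ K1 → K1 ≤ L → (∀ Y, A Y ∈ K1 ↔ Y ∈ K1) →
      MixOn μ T (fun B => MeasurableSet[mK μ E (K1 : Set 𝔤)] B) k from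
    main K le_rfl le_sup_left hK
  have hwf := (LieSubmodule.wellFoundedGT_of_noetherian ℝ 𝔤 𝔤).wf
  intro K1
  induction K1 using hwf.induction with
  | _ K1 ih =>
  intro hKK1 hK1L hK1
  by_cases hall : uni A ⊆ (K1 : Set 𝔤)
  · have hLK1 : L ≤ K1 := sup_le hKK1 (LieSubmodule.lieSpan_le.2 hall)
    intro B hB ε hε
    exact hmix B (fun i => ⟨(hB i).1, (hB i).1, fun V hV => (hB i).2.2 V (hLK1 hV)⟩) ε hε
  · rw [Set.not_subset] at hall
    obtain ⟨Z, ⟨Y, m, hYm, rfl⟩, hZ⟩ := hall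
    have hnK : ∀ V ∈ K1, nA A V ∈ K1 := fun V hV => by
      rw [nA_apply]
      exact K1.toSubmodule.sub_mem ((hK1 V).2 hV) hV
    classical
    have hex : ∃ l, ((nA A) ^ l) Y ∈ K1 := ⟨m, by rw [hYm]; exact K1.toSubmodule.zero_mem⟩
    set l₀ := Nat.find hex with hl₀
    have hl₀mem : ((nA A) ^ l₀) Y ∈ K1 := Nat.find_spec hex
    have h0 : l₀ ≠ 0 := by
      intro h
      rw [h, pow_zero, Module.End.one_apply] at hl₀mem
      exact hZ (hnK _ hl₀mem)
    have h10 : l₀ ≠ 1 := by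
      intro h
      rw [h, pow_one] at hl₀mem
      exact hZ hl₀mem
    obtain ⟨e, he⟩ : ∃ e, l₀ = e + 2 := ⟨l₀ - 2, by omega⟩
    have hnot : ((nA A) ^ (e + 1)) Y ∉ K1 := Nat.find_min hex (by omega)
    have hin : ((nA A) ^ (e + 1 + 1)) Y ∈ K1 := by
      have : e + 1 + 1 = l₀ := by omega
      rw [this]; exact hl₀mem
    set W := ((nA A) ^ (e + 1)) Y with hW
    set V := ((nA A) ^ e) Y with hV
    have hWV : W = A V - V := by
      rw [hW, pow_succ', Module.End.mul_apply, ← hV, nA_apply]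
    have hAW : A W - W ∈ K1 := by
      rw [← nA_apply, hW, ← Module.End.mul_apply, ← pow_succ']
      exact hin
    have hWuni : W ∈ uni A := by
      refine ⟨V, m, ?_, hWV⟩
      rw [hV, ← Module.End.mul_apply, ← pow_add, add_comm, pow_add, Module.End.mul_apply, hYm,
        map_zero]
    have hWL : W ∈ L :=
      (le_sup_right : _ ≤ L) (LieSubmodule.subset_lieSpan hWuni)
    set K' : LieIdeal ℝ 𝔤 := K1 ⊔ LieSubmodule.lieSpan ℝ 𝔤 {W} with hK'
    have hWK' : W ∈ K' := (le_sup_right : _ ≤ K') (LieSubmodule.subset_lieSpan rfl)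
    have hKK' : K1 < K' := by
      refine lt_of_le_of_ne le_sup_left fun h2 => ?_
      rw [← h2] at hWK'
      exact hnot hWK'
    have hK'L : K' ≤ L := sup_le hK1L (LieSubmodule.lieSpan_le.2 (by simpa using hWL))
    have hAs : ∀ Y Z : 𝔤, A.symm ⁅Y, Z⁆ = ⁅A.symm Y, A.symm Z⁆ := by
      intro Y Z
      apply A.injective
      rw [hA, A.apply_symm_apply, A.apply_symm_apply, A.apply_symm_apply]
    have hK1s : ∀ V ∈ K1, A.symm V ∈ K1 := by
      intro V hV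
      rw [← hK1, A.apply_symm_apply]; exact hV
    have hf1 : K' ≤ preI A hA K' := by
      refine sup_le (fun V hV => hKK'.le ((hK1 V).2 hV)) (LieSubmodule.lieSpan_le.2 ?_)
      intro V' hV'
      rw [Set.mem_singleton_iff] at hV'
      subst hV'
      show A W ∈ K'
      have : A W = W + (A W - W) := by abel
      rw [this]
      exact K'.toSubmodule.add_mem hWK' (hKK'.le hAW)
    have hf2 : K' ≤ preI A.symm hAs K' := by
      refine sup_le (fun V hV => hKK'.le (hK1s V hV)) (LieSubmodule.lieSpan_le.2 ?_)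
      intro V' hV'
      rw [Set.mem_singleton_iff] at hV'
      subst hV'
      show A.symm W ∈ K'
      have : A.symm W = W - A.symm (A W - W) := by
        rw [map_sub, A.symm_apply_apply]; abel
      rw [this]
      exact K'.toSubmodule.sub_mem hWK' (hKK'.le (hK1s _ hAW))
    have hK'A : ∀ Y, A Y ∈ K' ↔ Y ∈ K' := by
      intro Y'
      refine ⟨fun h => ?_, fun h => hf1 h⟩
      have := hf2 h
      rw [mem_preI, A.symm_apply_apply] at this
      exact this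
    have hmixK' := ih K' hKK' (hKK1.trans hKK'.le) hK'L hK'A
    have hcW := h1 𝔤 A hA K1 hK1 V W hWV hAW
    refine reduction_on hT (mK_le μ E _) (meas_of_conj hT hTA K1 fun V hV => (hK1 V).2 hV)
      (meas_of_conj (hT.symm T) (symm_conj' hT A hTA) K1 hK1s)
      (flow_on hE K1 W) ?_ (fun ε => hE.mp _) (fun ε => conj_meas hE K1 (ε • Y))
      (rate_rt (d := e + 1) (by omega))
      (h3 X 𝔤 μ E hE T hT A hTA K1 hK1 Y (e + 1) (by omega) hin) k ?_
    · intro u B hB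
      have g1 := hTA (u • W) B hB.1
      have g2 : A (u • W) = u • W + u • (A W - W) := by
        rw [map_smul, ← smul_add]; congr 1; abel
      rw [g2] at g1
      exact g1.trans (pre_ae hT (quot hE K1 (u • W) (u • (A W - W))
        (K1.toSubmodule.smul_mem u hAW) B hB))
    · intro B hB ε hε
      exact hmixK' B (fun i => ⟨(hB i).1, h2 X 𝔤 μ E hG K1 W hcW (B i) (hB i).2.1 (hB i).2.2⟩) ε hε

end Pool.Agent.W319.LX
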